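import Pool.Agent.H14.AVS.S3

/-!
# AVS: CLE, equality of classes
-/

set_option autoImplicit false

namespace Pool.Agent.H16.AVS

open Polynomial Matrix Pool.AVR Pool.AVS

theorem cle_thm : CLEStmt := by
  intro F _ f h h' u u' hu hu'
  constructor
  · intro he
    have h1 : u⁻¹ * u' ∈ Sq f := QuotientGroup.eq.mp he
    obtain ⟨v, hv⟩ := h1
    have hv' : v ^ 2 = u⁻¹ * u' := hv
    obtain ⟨s, hs⟩ := AdjoinRoot.mk_surjective (g := cubK f) ((v⁻¹ : (Alg f)ˣ) : Alg f)
    refine ⟨s, ?_⟩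
    rw [← AdjoinRoot.mk_eq_zero, map_sub, map_mul, map_pow, hs, ← hu, ← hu']
    have h2 : u' = u * v ^ 2 := by rw [hv']; group
    have h3 : (u : Alg f) = ((u' * (v⁻¹) ^ 2 : (Alg f)ˣ) : Alg f) := by
      congr 1
      rw [h2]; group
    rw [h3]
    push_cast
    ring
  · rintro ⟨s, hs⟩
    have h1 : (u : Alg f) = (u' : Alg f) * (AdjoinRoot.mk (cubK f) s) ^ 2 := by
      rw [hu, hu', ← map_pow, ← map_mul]
      rw [← sub_eq_zero, ← map_sub, AdjoinRoot.mk_eq_zero]
      exact hs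
    have h2 : IsUnit ((AdjoinRoot.mk (cubK f) s) ^ 2) := by
      have : IsUnit ((u' : Alg f) * (AdjoinRoot.mk (cubK f) s) ^ 2) := by
        rw [← h1]; exact u.isUnit
      exact isUnit_of_mul_isUnit_right this
    have h3 : IsUnit (AdjoinRoot.mk (cubK f) s) := by
      exact (isUnit_pow_iff two_ne_zero).mp h2
    obtain ⟨v, hv⟩ := h3
    apply QuotientGroup.eq.mpr
    refine ⟨v⁻¹, ?_⟩
    change (v⁻¹) ^ 2 = u⁻¹ * u'
    have h4 : u = u' * v ^ 2 := by
      apply Units.ext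
      rw [h1, ← hv]
      push_cast
      ring
    rw [h4]
    simp [mul_comm]

end Pool.Agent.H16.AVS
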