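import Pool.Agent.H16.AVS.SEH

/-!
# AVS: EMB, `E / 2E` embeds into the Selmer group
-/

set_option autoImplicit false

namespace Pool.Agent.H16.AVS

open Polynomial Matrix Pool.AVR Pool.AVS

section

variable {K : Type} [Field K]

theorem cub_monic (a b c : K) : (cub a b c).Monic := by
  unfold cub; monicity!

theorem cub_natDegree (a b c : K) : (cub a b c).natDegree = 3 := by
  unfold cub; compute_degree!

theorem cub_eval (a b c x : K) : (cub a b c).eval x = x ^ 3 + a * x ^ 2 + b * x + c := by
  simp [cub]

theorem norm_sub (g : K[X]) (hg : g.Monic) (x : K) :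
    Algebra.norm K (AdjoinRoot.mk g (C x - X)) = g.eval x := by
  have h1 : AdjoinRoot.mk g (C x - X) =
      algebraMap K (AdjoinRoot g) x - (AdjoinRoot.powerBasis' hg).gen := by
    rw [map_sub, AdjoinRoot.mk_C, AdjoinRoot.mk_X]
    rfl
  rw [h1, Algebra.norm_eq_matrix_det (AdjoinRoot.powerBasis' hg).basis]
  have h2 : Algebra.leftMulMatrix (AdjoinRoot.powerBasis' hg).basis
      (algebraMap K (AdjoinRoot g) x - (AdjoinRoot.powerBasis' hg).gen) =
      Matrix.scalar _ x -
        Algebra.leftMulMatrix (AdjoinRoot.powerBasis' hg).basis (AdjoinRoot.powerBasis' hg).gen := by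
    rw [map_sub]
    congr 1
    rw [AlgHom.commutes]
    rfl
  rw [h2, ← Matrix.eval_charpoly, charpoly_leftMulMatrix]
  congr 1
  rw [AdjoinRoot.powerBasis'_gen, AdjoinRoot.minpoly_root hg.ne_zero, hg.leadingCoeff, inv_one,
    C.map_one, mul_one]

theorem fac (a b c x y : K) (h : OnC a b c x y) (hy : y ≠ 0) :
    cub a b c ∣ 1 - (C x - X) * hh a b x y := by
  refine ⟨C ((y ^ 2)⁻¹), ?_⟩
  have h1 : (C ((y ^ 2)⁻¹) : K[X]) * C (y ^ 2) = 1 := by
    rw [← C_mul, inv_mul_cancel₀ (pow_ne_zero 2 hy), C_1]
  unfold OnC at h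
  rw [h] at h1 ⊢
  unfold hh cub
  rw [h]
  simp only [C_add, C_mul, C_pow] at h1 ⊢
  linear_combination -h1

end

open Classical in
/-- The class of a point. -/
noncomputable def cl {F : Type} [Field F] (f : F[X] × F[X] × F[X]) : EK f → (Alg f)ˣ ⧸ Sq f
  | .zero => 1
  | .some x _ _ => if h : IsUnit (AdjoinRoot.mk (cubK f) (C x - X)) then
      QuotientGroup.mk h.unit else 1

open Classical in
theorem cl_some {F : Type} [Field F] (f : F[X] × F[X] × F[X]) (x y : RatFunc F)
    (h : (E (algebraMap F[X] (RatFunc F) f.1) (algebraMap F[X] (RatFunc F) f.2.1)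
      (algebraMap F[X] (RatFunc F) f.2.2)).toAffine.Nonsingular x y)
    (hU : IsUnit (AdjoinRoot.mk (cubK f) (C x - X))) :
    cl f (WeierstrassCurve.Affine.Point.some x y h) = QuotientGroup.mk hU.unit :=
  dif_pos hU

theorem onC_of {K : Type} [Field K] (a b c x y : K) (h : (E a b c).toAffine.Nonsingular x y) :
    OnC a b c x y := by
  have h1 := h.1
  rw [WeierstrassCurve.Affine.equation_iff] at h1
  simp only [E] at h1
  unfold OnC
  linear_combination h1

theorem y_ne {F : Type} [Field F] (f : F[X] × F[X] × F[X]) (hf : Irreducible (cubK f))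
    (x y : RatFunc F) (h : OnC (kf f).1 (kf f).2.1 (kf f).2.2 x y) : y ≠ 0 := by
  rintro rfl
  have h1 : (cubK f).eval x = 0 := by
    unfold cubK
    rw [cub_eval]
    unfold OnC kf at h
    linear_combination -h
  have h2 := Polynomial.degree_eq_one_of_irreducible_of_root hf h1
  have h3 : (cubK f).natDegree = 3 := cub_natDegree _ _ _
  rw [Polynomial.degree_eq_natDegree hf.ne_zero, h3] at h2
  norm_cast at h2

theorem unit_of {F : Type} [Field F] (f : F[X] × F[X] × F[X])
    (x y : RatFunc F) (h : OnC (kf f).1 (kf f).2.1 (kf f).2.2 x y) (hy : y ≠ 0) :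
    IsUnit (AdjoinRoot.mk (cubK f) (C x - X)) := by
  have h1 := fac _ _ _ x y h hy
  have h2 : AdjoinRoot.mk (cubK f) (C x - X) * AdjoinRoot.mk (cubK f)
      (hh (kf f).1 (kf f).2.1 x y) = 1 := by
    have h3 : AdjoinRoot.mk (cubK f) (1 - (C x - X) * hh (kf f).1 (kf f).2.1 x y) = 0 :=
      AdjoinRoot.mk_eq_zero.mpr h1
    rw [map_sub, map_mul, map_one, sub_eq_zero] at h3
    exact h3.symm
  exact IsUnit.of_mul_eq_one _ h2

open Classical in
theorem emb_thm (hCLE : CLEStmt) (hHOM : HOMStmt) (hKER : KERStmt) (hSEH : SEHStmt) :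
    EMBStmt := by
  intro F _ _ h2 n f hf hfin
  have h2K : (2 : RatFunc F) ≠ 0 := by
    intro h
    apply h2
    have : algebraMap F (RatFunc F) 2 = algebraMap F (RatFunc F) 0 := by
      rw [map_zero, map_ofNat]; exact h
    exact (algebraMap F (RatFunc F)).injective this
  obtain ⟨_, hirr, hsep⟩ := hf
  obtain ⟨_, hS2, hS1⟩ := hSEH F h2 f
  -- classes lie in the Selmer group
  have hmem : ∀ R : EK f, cl f R ∈ Sel f := by
    intro R
    cases R with
    | zero => exact hS1
    | some x y h =>
      have hC := onC_of _ _ _ x y h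
      have hy := y_ne f hirr x y hC
      have hU := unit_of f x y hC hy
      have h3 := cl_some f x y h hU
      rw [h3]
      have hloc : ∀ (L : Type) [Field L] (ι : RatFunc F →+* L),
          LocSol (ι (kf f).1) (ι (kf f).2.1) (ι (kf f).2.2) ((C x - X : (RatFunc F)[X]).map ι) := by
        intro L _ ι
        refine ⟨ι x, ι y, ?_, ?_, 1, ?_⟩
        · have := congrArg ι hC
          simp only [map_pow, map_add, map_mul] at this
          exact this
        · exact (map_ne_zero ι).mpr hy
        · simp
      refine hS2 (C x - X) hU.unit hU.unit_spec ?_ ?_ ?_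
      · refine ⟨y, ?_⟩
        rw [norm_sub (cubK f) (cub_monic _ _ _)]
        unfold cubK
        rw [cub_eval]
        have := hC
        unfold OnC at this
        rw [← pow_two]
        exact this.symm
      · intro P _ _ L _ O ι _
        exact hloc L ι
      · intro L _ O ι _
        exact hloc L ι
  -- injectivity
  have hinj : ∀ R R' : EK f, cl f R = cl f R' → ∃ Q : EK f, R - R' = Q + Q := by
    intro R R' he
    cases R with
    | zero =>
      cases R' with
      | zero => exact ⟨0, by simp⟩
      | some x y h =>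
        have hC := onC_of _ _ _ x y h
        have hy := y_ne f hirr x y hC
        have hU := unit_of f x y hC hy
        have h3 := cl_some f x y h hU
        have h4 : cl f (WeierstrassCurve.Affine.Point.zero) = QuotientGroup.mk 1 := rfl
        rw [h3, h4] at he
        obtain ⟨s, hs⟩ := (hCLE F f (C x - X) 1 hU.unit 1 hU.unit_spec (by simp)).mp he.symm
        rw [one_mul] at hs
        obtain ⟨Q, hQ⟩ := hKER (RatFunc F) h2K _ _ _ hsep x y h s hs
        refine ⟨-Q, ?_⟩
        have : (WeierstrassCurve.Affine.Point.zero : EK f) = 0 := rfl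
        rw [this, hQ]
        abel
    | some x y h =>
      have hC := onC_of _ _ _ x y h
      have hy := y_ne f hirr x y hC
      have hU := unit_of f x y hC hy
      have h3 := cl_some f x y h hU
      cases R' with
      | zero =>
        have h4 : cl f (WeierstrassCurve.Affine.Point.zero) = QuotientGroup.mk 1 := rfl
        rw [h3, h4] at he
        obtain ⟨s, hs⟩ := (hCLE F f (C x - X) 1 hU.unit 1 hU.unit_spec (by simp)).mp he
        rw [one_mul] at hs
        obtain ⟨Q, hQ⟩ := hKER (RatFunc F) h2K _ _ _ hsep x y h s hs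
        refine ⟨Q, ?_⟩
        have : (WeierstrassCurve.Affine.Point.zero : EK f) = 0 := rfl
        rw [this, hQ]
        abel
      | some x' y' h' =>
        have hC' := onC_of _ _ _ x' y' h'
        have hy' := y_ne f hirr x' y' hC'
        have hU' := unit_of f x' y' hC' hy'
        have h3' := cl_some f x' y' h' hU'
        rw [h3, h3'] at he
        obtain ⟨s, hs⟩ := (hCLE F f (C x - X) (C x' - X) hU.unit hU'.unit hU.unit_spec
          hU'.unit_spec).mp he
        refine hHOM (RatFunc F) h2K _ _ _ hsep x y h x' y' h' ((C x' - X) * s) hy hy' ?_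
        have h5 : (C x - X) * (C x' - X) - ((C x' - X) * s) ^ 2 =
            (C x - X - (C x' - X) * s ^ 2) * (C x' - X) := by ring
        rw [h5]
        exact Dvd.dvd.mul_right hs _
  have : Finite (Sel f) := hfin
  rw [← Nat.card_coe_set_eq]
  apply Nat.card_le_card_of_injective (fun q : Mod2 (EK f) => (⟨cl f q.out, hmem _⟩ : Sel f))
  intro q q' hq
  have h6 : cl f q.out = cl f q'.out := congrArg Subtype.val hq
  obtain ⟨Q, hQ⟩ := hinj _ _ h6
  rw [← QuotientAddGroup.out_eq' q, ← QuotientAddGroup.out_eq' q']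
  apply QuotientAddGroup.eq.mpr
  refine ⟨-Q, ?_⟩
  simp only [nsmulAddMonoidHom_apply, two_nsmul]
  have h7 : -Quotient.out q + Quotient.out q' = -(Quotient.out q - Quotient.out q') := by abel
  rw [h7, hQ]
  abel

end Pool.Agent.H16.AVS
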