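import Pool.Agent.H14.AVS.S3

/-!
# AVS: SEH, elements of the Selmer group
-/

set_option autoImplicit false

namespace Pool.Agent.H16.AVS

open Polynomial Matrix Pool.AVR Pool.AVS

/-- The height one prime of a monic irreducible polynomial. -/
noncomputable def vP {F : Type} [Field F] (P : F[X]) (hP : Irreducible P) :
    IsDedekindDomain.HeightOneSpectrum F[X] :=
  ⟨Ideal.span {P}, (Ideal.span_singleton_prime hP.ne_zero).mpr hP.prime, by
    simp [hP.ne_zero]⟩

theorem exists_gen {F : Type} [Field F] (v : IsDedekindDomain.HeightOneSpectrum F[X]) :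
    ∃ P : F[X], P.Monic ∧ Irreducible P ∧ v.asIdeal = Ideal.span {P} := by
  classical
  obtain ⟨g, hg⟩ := (inferInstance : v.asIdeal.IsPrincipal)
  have hg' : v.asIdeal = Ideal.span {g} := hg
  have hg0 : g ≠ 0 := by
    rintro rfl
    apply v.ne_bot
    rw [hg']; simp
  have hp : Prime g := by
    have := v.isPrime
    rw [hg', Ideal.span_singleton_prime hg0] at this
    exact this
  refine ⟨normalize g, monic_normalize hg0, ?_, ?_⟩
  · exact (associated_normalize g).irreducible hp.irreducible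
  · rw [hg', Ideal.span_singleton_eq_span_singleton]
    exact associated_normalize g

theorem cub_map {F : Type} [Field F] (f : F[X] × F[X] × F[X]) {L : Type} [Field L]
    (ι : RatFunc F →+* L) :
    cub (ι (kf f).1) (ι (kf f).2.1) (ι (kf f).2.2) = (cubK f).map ι := by
  simp [cubK, cub, kf, Polynomial.map_add, Polynomial.map_mul, Polynomial.map_pow]

theorem locSol_congr {F : Type} [Field F] (f : F[X] × F[X] × F[X]) {L : Type} [Field L]
    (ι : RatFunc F →+* L) (p h : (RatFunc F)[X])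
    (hph : AdjoinRoot.mk (cubK f) p = AdjoinRoot.mk (cubK f) h)
    (hs : LocSol (ι (kf f).1) (ι (kf f).2.1) (ι (kf f).2.2) (p.map ι)) :
    LocSol (ι (kf f).1) (ι (kf f).2.1) (ι (kf f).2.2) (h.map ι) := by
  obtain ⟨x, y, h1, h2, s, h3⟩ := hs
  refine ⟨x, y, h1, h2, s, ?_⟩
  have h4 : cubK f ∣ p - h := by
    rw [← AdjoinRoot.mk_eq_zero, map_sub, hph, sub_self]
  have h5 : (cubK f).map ι ∣ (p.map ι - h.map ι) := by
    rw [← Polynomial.map_sub]; exact Polynomial.map_dvd ι h4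
  rw [cub_map] at h3 ⊢
  have h6 : C x - X - h.map ι * s ^ 2 = (C x - X - p.map ι * s ^ 2) +
      (p.map ι - h.map ι) * s ^ 2 := by ring
  rw [h6]
  exact dvd_add h3 (Dvd.dvd.mul_right h5 _)

theorem isCoprime_of_unit {F : Type} [Field F] (f : F[X] × F[X] × F[X]) (h : (RatFunc F)[X])
    (u : (Alg f)ˣ) (hu : (u : Alg f) = AdjoinRoot.mk (cubK f) h) : IsCoprime h (cubK f) := by
  obtain ⟨g, hg⟩ := AdjoinRoot.mk_surjective (g := cubK f) ((u⁻¹ : (Alg f)ˣ) : Alg f)
  have h1 : AdjoinRoot.mk (cubK f) (g * h) = 1 := by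
    rw [map_mul, hg, ← hu, Units.inv_mul]
  have h2 : cubK f ∣ 1 - g * h := by
    rw [← AdjoinRoot.mk_eq_zero, map_sub, h1, map_one, sub_self]
  obtain ⟨r, hr⟩ := h2
  exact ⟨g, r, by linear_combination -hr⟩

theorem seh_thm (hCPP : CPPStmt) (hCPI : CPIStmt) (hTRS : TRSStmt) : SEHStmt := by
  intro F _ _ h2 f
  refine ⟨?_, ?_, ?_⟩
  · rintro ξ ⟨u, hu, hN, hv, hi⟩
    obtain ⟨h, hh⟩ := AdjoinRoot.mk_surjective (g := cubK f) (u : Alg f)
    refine ⟨h, u, isCoprime_of_unit f h u hh.symm, hh.symm, hu, by rw [hh]; exact hN, ?_, ?_⟩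
    · intro P hPm hPi
      obtain ⟨p, hp, hs⟩ := hv (vP P hPi)
      exact ⟨_, _, _, _, hCPP F h2 P hPm hPi (vP P hPi) rfl,
        locSol_congr f _ p h (hp.trans hh.symm) hs⟩
    · obtain ⟨p, hp, hs⟩ := hi
      exact ⟨_, _, _, _, hCPI F h2, locSol_congr f _ p h (hp.trans hh.symm) hs⟩
  · intro h u hu hN hv hi
    refine ⟨u, rfl, by rw [hu]; exact hN, ?_, ?_⟩
    · intro v
      obtain ⟨P, hPm, hPi, hvP⟩ := exists_gen v
      exact ⟨h, hu.symm, hv P hPm hPi _ _ _ (hCPP F h2 P hPm hPi v hvP)⟩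
    · exact ⟨h, hu.symm, hi _ _ _ (hCPI F h2)⟩
  · refine ⟨1, rfl, ?_, ?_, ?_⟩
    · exact ⟨1, by simp⟩
    · intro v
      obtain ⟨P, hPm, hPi, hvP⟩ := exists_gen v
      refine ⟨1, by simp, ?_⟩
      have := hTRS _ _ _ (hCPP F h2 P hPm hPi v hvP).loc
        (algebraMap (RatFunc F) (v.adicCompletion (RatFunc F)) (kf f).1)
        (algebraMap (RatFunc F) (v.adicCompletion (RatFunc F)) (kf f).2.1)
        (algebraMap (RatFunc F) (v.adicCompletion (RatFunc F)) (kf f).2.2)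
      rw [Polynomial.map_one]
      exact this
    · refine ⟨1, by simp, ?_⟩
      rw [Polynomial.map_one]
      exact hTRS _ _ _ (hCPI F h2).loc _ _ _

end Pool.Agent.H16.AVS
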