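import Pool.Agent.H14.AVS.S5
import Pool.Agent.H86.AVR.TAI
import Pool.Agent.H99.AVR.CNB

/-!
# AVS: TB2, large common prime divisors are rare
-/

set_option autoImplicit false

namespace Pool.Agent.H16.AVS

open Polynomial Matrix Pool.AVR Pool.AVS Pool.AVR.H86

variable {F : Type} [Field F]

theorem ncard_dvd [Finite F] (N : ℕ) (P : F[X]) (hP : P ≠ 0) :
    ({p ∈ PD F N | P ∣ p} : Set F[X]).ncard ≤ Nat.card F ^ (N + 1 - P.natDegree) := by
  have := ncard_class N P 0 hP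
  simpa using this

/-- Six-tuples of polynomials. -/
abbrev T6 (F : Type) [Field F] : Type := F[X] × F[X] × F[X] × F[X] × F[X] × F[X]

/-- both corners divisible by `P` -/
def Z1 (n m : ℕ) (P : F[X]) : Set (T6 F) :=
  {p ∈ PD F (2 * n - 2 * m) | P ∣ p} ×ˢ ({p ∈ PD F (2 * n - m) | P ∣ p} ×ˢ (PD F (2 * n) ×ˢ
    (PD F (2 * n) ×ˢ (PD F (2 * n + m) ×ˢ PD F (2 * n + 2 * m)))))

/-- corner and trace divisible by `P` -/
def Z2 (n m : ℕ) (P : F[X]) : Set (T6 F) :=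
  {p ∈ PD F (2 * n - 2 * m) | P ∣ p} ×ˢ (PD F (2 * n - m) ×ˢ (PD F (2 * n) ×ˢ
    ({p ∈ PD F (2 * n) | P ∣ p} ×ˢ (PD F (2 * n + m) ×ˢ PD F (2 * n + 2 * m)))))

/-- corner and trace divisible by `P` -/
def Z3 (n m : ℕ) (P : F[X]) : Set (T6 F) :=
  {t | t.1 ∈ PD F (2 * n - 2 * m) ∧ P ∣ t.1 ∧ t.2.1 ∈ PD F (2 * n - m) ∧
    t.2.2.1 ∈ PD F (2 * n) ∧ t.2.2.2.1 ∈ PD F (2 * n) ∧ P ∣ 2 * t.2.2.1 + t.2.2.2.1 ∧
    t.2.2.2.2.1 ∈ PD F (2 * n + m) ∧ t.2.2.2.2.2 ∈ PD F (2 * n + 2 * m)}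

theorem PDs_finite [Finite F] (N : ℕ) (P : F[X]) : ({p ∈ PD F N | P ∣ p} : Set F[X]).Finite :=
  (PD_finite N).subset fun _ h => h.1

theorem Z1_finite [Finite F] (n m : ℕ) (P : F[X]) : (Z1 n m P).Finite :=
  (PDs_finite _ P).prod ((PDs_finite _ P).prod ((PD_finite _).prod ((PD_finite _).prod
    ((PD_finite _).prod (PD_finite _)))))

theorem Z2_finite [Finite F] (n m : ℕ) (P : F[X]) : (Z2 n m P).Finite :=
  (PDs_finite _ P).prod ((PD_finite _).prod ((PD_finite _).prod ((PDs_finite _ P).prod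
    ((PD_finite _).prod (PD_finite _)))))

theorem Z1_card [Finite F] (n m : ℕ) (P : F[X]) (hP : P ≠ 0) (hd : P.natDegree ≤ 2 * n - 2 * m)
    (hm : m ≤ n) : (Z1 n m P).ncard ≤ Nat.card F ^ (12 * n + 6 - 2 * P.natDegree) := by
  unfold Z1
  rw [Set.ncard_prod, Set.ncard_prod, Set.ncard_prod, Set.ncard_prod, Set.ncard_prod]
  simp only [PD_ncard]
  have h1 := ncard_dvd (2 * n - 2 * m) P hP
  have h2 := ncard_dvd (2 * n - m) P hP
  calc _ ≤ Nat.card F ^ (2 * n - 2 * m + 1 - P.natDegree) *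
        (Nat.card F ^ (2 * n - m + 1 - P.natDegree) * (Nat.card F ^ (2 * n + 1) *
          (Nat.card F ^ (2 * n + 1) * (Nat.card F ^ (2 * n + m + 1) *
            Nat.card F ^ (2 * n + 2 * m + 1))))) :=
        Nat.mul_le_mul h1 (Nat.mul_le_mul_right _ h2)
    _ = _ := by
        simp only [← pow_add]
        congr 1
        omega

theorem Z2_card [Finite F] (n m : ℕ) (P : F[X]) (hP : P ≠ 0) (hd : P.natDegree ≤ 2 * n - 2 * m)
    (hm : m ≤ n) : (Z2 n m P).ncard ≤ Nat.card F ^ (12 * n + 6 - 2 * P.natDegree) := by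
  unfold Z2
  rw [Set.ncard_prod, Set.ncard_prod, Set.ncard_prod, Set.ncard_prod, Set.ncard_prod]
  simp only [PD_ncard]
  have h1 := ncard_dvd (2 * n - 2 * m) P hP
  have h2 := ncard_dvd (2 * n) P hP
  calc _ ≤ Nat.card F ^ (2 * n - 2 * m + 1 - P.natDegree) *
        (Nat.card F ^ (2 * n - m + 1) * (Nat.card F ^ (2 * n + 1) *
          (Nat.card F ^ (2 * n + 1 - P.natDegree) * (Nat.card F ^ (2 * n + m + 1) *
            Nat.card F ^ (2 * n + 2 * m + 1))))) :=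
        Nat.mul_le_mul h1 (Nat.mul_le_mul_left _ (Nat.mul_le_mul_left _
          (Nat.mul_le_mul_right _ h2)))
    _ = _ := by
        simp only [← pow_add]
        congr 1
        omega

/-- the shear -/
noncomputable def shr (t : T6 F) : T6 F := (t.1, t.2.1, t.2.2.1, 2 * t.2.2.1 + t.2.2.2.1, t.2.2.2.2)

theorem shr_inj : Function.Injective (shr (F := F)) := by
  rintro ⟨a, b, c, d, e⟩ ⟨a', b', c', d', e'⟩ h
  simp only [shr, Prod.mk.injEq] at h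
  obtain ⟨rfl, rfl, rfl, h4, rfl⟩ := h
  have : d = d' := by linear_combination h4
  rw [this]

theorem shr_maps (n m : ℕ) (P : F[X]) : ∀ t ∈ Z3 n m P, shr t ∈ Z2 n m P := by
  rintro ⟨a, b, c, d, e, f⟩ ⟨h1, h2, h3, h4, h5, h6, h7, h8⟩
  refine ⟨⟨h1, h2⟩, h3, h4, ⟨?_, h6⟩, h7, h8⟩
  change (2 * c + d).natDegree ≤ 2 * n
  refine (natDegree_add_le _ _).trans (max_le ?_ h5)
  refine natDegree_mul_le.trans ?_
  have : (2 : F[X]).natDegree = 0 := natDegree_ofNat 2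
  rw [this, zero_add]
  exact h4

theorem Z3_finite [Finite F] (n m : ℕ) (P : F[X]) : (Z3 n m P).Finite := by
  refine Set.Finite.of_finite_image ((Z2_finite n m P).subset ?_) (shr_inj.injOn)
  rintro _ ⟨t, ht, rfl⟩
  exact shr_maps n m P t ht

theorem Z3_card [Finite F] (n m : ℕ) (P : F[X]) (hP : P ≠ 0) (hd : P.natDegree ≤ 2 * n - 2 * m)
    (hm : m ≤ n) : (Z3 n m P).ncard ≤ Nat.card F ^ (12 * n + 6 - 2 * P.natDegree) :=
  (Set.ncard_le_ncard_of_injOn shr (shr_maps n m P) shr_inj.injOn (Z2_finite n m P)).trans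
    (Z2_card n m P hP hd hm)

theorem six_mem (n m : ℕ) (hm : m ≤ n) (B : Matrix (Fin 3) (Fin 3) F[X]) (hB : Bd n m B) :
    B 0 0 ∈ PD F (2 * n - 2 * m) ∧ B 0 1 ∈ PD F (2 * n - m) ∧ B 0 2 ∈ PD F (2 * n) ∧
      B 1 1 ∈ PD F (2 * n) ∧ B 1 2 ∈ PD F (2 * n + m) ∧ B 2 2 ∈ PD F (2 * n + 2 * m) := by
  have key : ∀ i j (N : ℕ), (2 * (n : ℤ) + dd m i + dd m j = N) → B i j ∈ PD F N := by
    intro i j N hN
    show (B i j).natDegree ≤ N
    by_cases h0 : B i j = 0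
    · rw [h0, natDegree_zero]; exact Nat.zero_le _
    · have := hB.2 i j h0
      rw [hN] at this
      exact_mod_cast this
  refine ⟨key 0 0 _ ?_, key 0 1 _ ?_, key 0 2 _ ?_, key 1 1 _ ?_, key 1 2 _ ?_, key 2 2 _ ?_⟩ <;>
    simp only [dd, Matrix.cons_val_zero, Matrix.cons_val_one, Matrix.cons_val] <;> push_cast <;>
    omega

theorem Ird_card [Finite F] (d : ℕ) (hd : 1 ≤ d) : (Ird F d).card ≤ Nat.card F ^ d := by
  have := irr_count d (Ird F d) (fun P hP => (mem_Ird d P).mp hP)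
  calc _ = 1 * (Ird F d).card := (one_mul _).symm
    _ ≤ d * (Ird F d).card := Nat.mul_le_mul_right _ hd
    _ ≤ _ := this

theorem main_bound [Finite F] (n m : ℕ) (hm : m ≤ n) :
    {B : Matrix (Fin 3) (Fin 3) F[X] | Bd n m B ∧ B 0 0 ≠ 0 ∧
      ∃ P : F[X], P.Monic ∧ Irreducible P ∧ n < 2 * P.natDegree ∧ P ∣ B 0 0 ∧
        (P ∣ B 0 1 ∨ P ∣ ia B)}.ncard ≤
      (2 * n + 1) * (2 * Nat.card F ^ (12 * n + 6 - (n + 1) / 2)) := by
  classical
  set S : Set (Matrix (Fin 3) (Fin 3) F[X]) := {B : Matrix (Fin 3) (Fin 3) F[X] | Bd n m B ∧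
    B 0 0 ≠ 0 ∧ ∃ P : F[X], P.Monic ∧ Irreducible P ∧ n < 2 * P.natDegree ∧ P ∣ B 0 0 ∧
        (P ∣ B 0 1 ∨ P ∣ ia B)} with hS
  set D : Finset ℕ := (Finset.range (2 * n + 1)).filter
    (fun d => n < 2 * d ∧ d ≤ 2 * n - 2 * m) with hD
  set U : Set (T6 F) := ⋃ d ∈ D, ⋃ P ∈ Ird F d, (Z1 n m P ∪ Z3 n m P) with hU
  have hUf : U.Finite := by
    refine Set.Finite.biUnion D.finite_toSet fun d _ => ?_
    refine Set.Finite.biUnion (Ird F d).finite_toSet fun P _ => ?_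
    exact (Z1_finite n m P).union (Z3_finite n m P)
  have hmap : ∀ B ∈ S, h99six B ∈ U := by
    rintro B ⟨hB, h0, P, hPm, hPi, hPd, hP0, hP1⟩
    obtain ⟨k1, k2, k3, k4, k5, k6⟩ := six_mem n m hm B hB
    have hdeg : P.natDegree ≤ 2 * n - 2 * m := (natDegree_le_of_dvd hP0 h0).trans k1
    simp only [hU, Set.mem_iUnion]
    refine ⟨P.natDegree, ?_, P, (mem_Ird _ _).mpr ⟨hPm, hPi, rfl⟩, ?_⟩
    · rw [hD, Finset.mem_filter, Finset.mem_range]
      omega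
    · rcases hP1 with hP1 | hP1
      · left
        exact ⟨⟨k1, hP0⟩, ⟨k2, hP1⟩, k3, k4, k5, k6⟩
      · right
        refine ⟨k1, hP0, k2, k3, k4, ?_, k5, k6⟩
        unfold ia at hP1
        exact (dvd_neg).mp hP1
  have hinj : Set.InjOn h99six S := by
    intro B hB B' hB' he
    exact h99six_inj B B' hB.1.1 hB'.1.1 he
  have h1 : S.ncard ≤ U.ncard := Set.ncard_le_ncard_of_injOn h99six hmap hinj hUf
  refine h1.trans ?_
  have h2 : ∀ d ∈ D, (⋃ P ∈ Ird F d, (Z1 n m P ∪ Z3 n m P)).ncard ≤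
      2 * Nat.card F ^ (12 * n + 6 - (n + 1) / 2) := by
    intro d hd
    rw [hD, Finset.mem_filter, Finset.mem_range] at hd
    obtain ⟨hd1, hd2, hd3⟩ := hd
    refine (Finset.set_ncard_biUnion_le _ _).trans ?_
    have h3 : ∀ P ∈ Ird F d, (Z1 n m P ∪ Z3 n m P).ncard ≤
        2 * Nat.card F ^ (12 * n + 6 - 2 * d) := by
      intro P hP
      obtain ⟨_, hPi, hPd⟩ := (mem_Ird _ _).mp hP
      have h4 := Z1_card n m P hPi.ne_zero (by omega) hm
      have h5 := Z3_card n m P hPi.ne_zero (by omega) hm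
      rw [hPd] at h4 h5
      have := Set.ncard_union_le (Z1 n m P) (Z3 n m P)
      omega
    refine (Finset.sum_le_card_nsmul _ _ _ h3).trans ?_
    rw [smul_eq_mul]
    have h6 := Ird_card (F := F) d (by omega)
    calc _ ≤ Nat.card F ^ d * (2 * Nat.card F ^ (12 * n + 6 - 2 * d)) :=
          Nat.mul_le_mul_right _ h6
      _ = 2 * Nat.card F ^ (d + (12 * n + 6 - 2 * d)) := by rw [pow_add]; ring
      _ ≤ _ := by
          refine Nat.mul_le_mul_left _ (Nat.pow_le_pow_right Nat.card_pos ?_)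
          omega
  calc U.ncard ≤ _ := Finset.set_ncard_biUnion_le _ _
    _ ≤ D.card • (2 * Nat.card F ^ (12 * n + 6 - (n + 1) / 2)) :=
        Finset.sum_le_card_nsmul _ _ _ h2
    _ ≤ _ := by
        rw [smul_eq_mul]
        refine Nat.mul_le_mul_right _ ?_
        rw [hD]
        exact (Finset.card_filter_le _ _).trans (by rw [Finset.card_range])

theorem small_of (ε : ℝ) (hε : 0 < ε) : ∃ K : ℕ, ∀ k : ℕ, K ≤ k →
    (8 * (k : ℝ) + 2) ≤ ε * 2 ^ k := by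
  have h1 : Filter.Tendsto (fun k : ℕ => (k : ℝ) * (1 / 2 : ℝ) ^ k) Filter.atTop (nhds 0) :=
    tendsto_self_mul_const_pow_of_lt_one (by norm_num) (by norm_num)
  have h2 : Filter.Tendsto (fun k : ℕ => (1 / 2 : ℝ) ^ k) Filter.atTop (nhds 0) :=
    tendsto_pow_atTop_nhds_zero_of_lt_one (by norm_num) (by norm_num)
  have h3 : Filter.Tendsto (fun k : ℕ => 8 * ((k : ℝ) * (1 / 2 : ℝ) ^ k) + 2 * (1 / 2 : ℝ) ^ k)
      Filter.atTop (nhds 0) := by
    have := (h1.const_mul 8).add (h2.const_mul 2)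
    simpa using this
  have h4 := (h3.eventually (gt_mem_nhds hε))
  obtain ⟨K, hK⟩ := Filter.eventually_atTop.mp h4
  refine ⟨K, fun k hk => ?_⟩
  have h5 := hK k hk
  have h6 : (0 : ℝ) < 2 ^ k := by positivity
  have h7 : ((1 / 2 : ℝ)) ^ k = 1 / 2 ^ k := by rw [div_pow, one_pow]
  rw [h7] at h5
  have h8 : (8 * (k : ℝ) + 2) / 2 ^ k < ε := by
    have : 8 * ((k : ℝ) * (1 / 2 ^ k)) + 2 * (1 / 2 ^ k) = (8 * (k : ℝ) + 2) / 2 ^ k := by ring
    rw [← this]; exact h5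
  rw [div_lt_iff₀ h6] at h8
  exact h8.le

theorem tb2_thm : TB2Stmt := by
  intro F _ _ _ m ε hε
  obtain ⟨K, hK⟩ := small_of ε hε
  refine ⟨max m (2 * K), fun n hn => ?_⟩
  have hm : m ≤ n := (le_max_left _ _).trans hn
  have hn2 : 2 * K ≤ n := (le_max_right _ _).trans hn
  have h1 := main_bound (F := F) n m hm
  have hq : 2 ≤ Nat.card F := Finite.one_lt_card
  set k : ℕ := (n + 1) / 2 with hk
  have hkK : K ≤ k := by omega
  have h2 := hK k hkK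
  have hq' : (2 : ℝ) ≤ Nat.card F := by exact_mod_cast hq
  have h3 : ((2 * n + 1) * (2 * Nat.card F ^ (12 * n + 6 - k)) : ℕ) ≤
      (ε * (Nat.card F : ℝ) ^ (12 * n + 6)) := by
    push_cast
    have h4 : (Nat.card F : ℝ) ^ (12 * n + 6) = (Nat.card F : ℝ) ^ k *
        (Nat.card F : ℝ) ^ (12 * n + 6 - k) := by
      rw [← pow_add]; congr 1; omega
    rw [h4]
    have h5 : (0 : ℝ) < (Nat.card F : ℝ) ^ (12 * n + 6 - k) := by positivity
    have h6 : (2 * (n : ℝ) + 1) * 2 ≤ ε * (Nat.card F : ℝ) ^ k := by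
      have h7 : (n : ℝ) ≤ 2 * k := by
        have : n ≤ 2 * k := by omega
        exact_mod_cast this
      have h8 : (2 : ℝ) ^ k ≤ (Nat.card F : ℝ) ^ k := pow_le_pow_left₀ (by norm_num) hq' k
      calc (2 * (n : ℝ) + 1) * 2 ≤ 8 * k + 2 := by linarith
        _ ≤ ε * 2 ^ k := h2
        _ ≤ _ := mul_le_mul_of_nonneg_left h8 hε.le
    calc (2 * (n : ℝ) + 1) * (2 * (Nat.card F : ℝ) ^ (12 * n + 6 - k)) =
        ((2 * (n : ℝ) + 1) * 2) * (Nat.card F : ℝ) ^ (12 * n + 6 - k) := by ring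
      _ ≤ (ε * (Nat.card F : ℝ) ^ k) * (Nat.card F : ℝ) ^ (12 * n + 6 - k) :=
          mul_le_mul_of_nonneg_right h6 h5.le
      _ = _ := by ring
  exact (Nat.cast_le.mpr h1).trans h3

end Pool.Agent.H16.AVS
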