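import Pool.Agent.H14.AVS.S6
import Pool.Agent.H86.AVR.TAI

/-!
# AVS: SHC, from all equations to short equations
-/

set_option autoImplicit false

namespace Pool.Agent.H16.AVS

open Polynomial Matrix Pool.AVR Pool.AVS Pool.AVR.H86

variable {F : Type} [Field F]

/-- the substitution -/
noncomputable def phi (p : F[X] × (F[X] × F[X] × F[X])) : F[X] × F[X] × F[X] :=
  (3 * p.1, p.2.2.1 + 3 * p.1 ^ 2, p.2.2.2 + p.1 * p.2.2.1 + p.1 ^ 3)

theorem phi_subs (r : F[X]) (g : F[X] × F[X] × F[X]) (hg : g.1 = 0) :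
    Subs 1 r (phi (r, g)) g := by
  refine ⟨?_, ?_, ?_⟩
  · rw [hg]; simp only [phi]; ring
  · simp only [phi]; ring
  · simp only [phi]; ring

theorem phi_disc (r : F[X]) (g : F[X] × F[X] × F[X]) (hg : g.1 = 0) :
    disc (phi (r, g)).1 (phi (r, g)).2.1 (phi (r, g)).2.2 = disc g.1 g.2.1 g.2.2 := by
  rw [hg]
  simp only [phi, disc]
  ring

theorem three_ne (h3 : (3 : F) ≠ 0) : (3 : F[X]) ≠ 0 := by
  intro h
  apply h3
  have h4 : (C (3 : F) : F[X]) = C 0 := by
    rw [C_0, ← h]; exact map_ofNat C 3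
  exact C_injective h4

theorem deg3 (p : F[X]) (N : ℕ) (h : p.natDegree ≤ N) : (3 * p).natDegree ≤ N := by
  refine natDegree_mul_le.trans ?_
  have : (3 : F[X]).natDegree = 0 := natDegree_ofNat 3
  rw [this, zero_add]
  exact h

theorem phi_bij (h3 : (3 : F) ≠ 0) (n : ℕ) :
    Set.BijOn phi (PD F (2 * n) ×ˢ Sht F n) (Ell F n) := by
  refine ⟨?_, ?_, ?_⟩
  · rintro ⟨r, g⟩ ⟨hr, ⟨⟨hF, hd⟩, hg⟩⟩
    have hr' : r.natDegree ≤ 2 * n := hr
    obtain ⟨_, h4, h6⟩ := hF
    change g.2.1.natDegree ≤ 4 * n at h4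
    change g.2.2.natDegree ≤ 6 * n at h6
    refine ⟨⟨?_, ?_, ?_⟩, ?_⟩
    · exact deg3 r _ hr'
    · change (g.2.1 + 3 * r ^ 2).natDegree ≤ 4 * n
      refine (natDegree_add_le _ _).trans (max_le h4 (deg3 _ _ ?_))
      refine natDegree_pow_le.trans ?_
      omega
    · change (g.2.2 + r * g.2.1 + r ^ 3).natDegree ≤ 6 * n
      refine (natDegree_add_le _ _).trans (max_le ((natDegree_add_le _ _).trans (max_le h6 ?_)) ?_)
      · refine natDegree_mul_le.trans ?_
        omega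
      · refine natDegree_pow_le.trans ?_
        omega
    · rw [phi_disc r g hg]
      exact hd
  · rintro ⟨r, g⟩ ⟨_, ⟨_, hg⟩⟩ ⟨r', g'⟩ ⟨_, ⟨_, hg'⟩⟩ h
    obtain ⟨a, b, c⟩ := g
    obtain ⟨a', b', c'⟩ := g'
    simp only at hg hg'
    subst hg
    subst hg'
    simp only [phi, Prod.mk.injEq] at h
    obtain ⟨h1, h2, h4⟩ := h
    have e1 : r = r' := mul_left_cancel₀ (three_ne h3) h1
    subst e1
    have e2 : b = b' := by linear_combination h2
    subst e2
    have e3 : c = c' := by linear_combination h4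
    rw [e3]
  · rintro ⟨a, b, c⟩ ⟨⟨h2, h4, h6⟩, hd⟩
    simp only at h2 h4 h6 hd
    set r : F[X] := C ((3 : F)⁻¹) * a with hr
    have h3r : 3 * r = a := by
      have : (3 : F[X]) = C (3 : F) := (map_ofNat C 3).symm
      rw [hr, this, ← mul_assoc, ← C_mul, mul_inv_cancel₀ h3, C_1, one_mul]
    have hrd : r.natDegree ≤ 2 * n := (natDegree_C_mul_le _ _).trans h2
    set g : F[X] × F[X] × F[X] := (0, b - 3 * r ^ 2, c - r * (b - 3 * r ^ 2) - r ^ 3) with hg
    have hphi : phi (r, g) = (a, b, c) := by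
      simp only [phi, hg, h3r, Prod.mk.injEq, true_and]
      constructor <;> ring
    refine ⟨(r, g), ⟨hrd, ⟨⟨⟨?_, ?_, ?_⟩, ?_⟩, rfl⟩⟩, hphi⟩
    · change (0 : F[X]).natDegree ≤ 2 * n
      rw [natDegree_zero]; exact Nat.zero_le _
    · change (b - 3 * r ^ 2).natDegree ≤ 4 * n
      refine (natDegree_sub_le _ _).trans (max_le h4 (deg3 _ _ ?_))
      refine natDegree_pow_le.trans ?_
      omega
    · change (c - r * (b - 3 * r ^ 2) - r ^ 3).natDegree ≤ 6 * n
      have hb' : (b - 3 * r ^ 2).natDegree ≤ 4 * n := by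
        refine (natDegree_sub_le _ _).trans (max_le h4 (deg3 _ _ ?_))
        refine natDegree_pow_le.trans ?_
        omega
      refine (natDegree_sub_le _ _).trans (max_le ((natDegree_sub_le _ _).trans (max_le h6 ?_)) ?_)
      · refine natDegree_mul_le.trans ?_
        omega
      · refine natDegree_pow_le.trans ?_
        omega
    · have := phi_disc r g rfl
      rw [hphi] at this
      rw [← this]
      exact hd

theorem shc_thm : SHCStmt := by
  classical
  intro F _ _ _ h3 G hG n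
  have hEf : (Ell F n).Finite := (Fam_finite n).subset fun _ h => h.1
  have hSf : (Sht F n).Finite := hEf.subset fun _ h => h.1
  refine ⟨hSf, ?_⟩
  have hPf : (PD F (2 * n)).Finite := PD_finite _
  have h1 : ∑ᶠ f ∈ Ell F n, G f = ∑ᶠ p ∈ PD F (2 * n) ×ˢ Sht F n, G p.2 := by
    refine (finsum_mem_eq_of_bijOn phi (phi_bij h3 n) ?_).symm
    rintro ⟨r, g⟩ ⟨_, ⟨_, hg⟩⟩
    exact (hG _ _ r (phi_subs r g hg)).symm
  rw [h1, finsum_mem_eq_finite_toFinset_sum _ (hPf.prod hSf),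
    finsum_mem_eq_finite_toFinset_sum _ hSf]
  have h2 : (hPf.prod hSf).toFinset = hPf.toFinset ×ˢ hSf.toFinset := by
    ext p
    simp
  rw [h2, Finset.sum_product]
  simp only [Finset.sum_const, nsmul_eq_mul]
  congr 1
  rw [← Set.ncard_eq_toFinset_card _ hPf, PD_ncard]
  push_cast
  rfl

end Pool.Agent.H16.AVS
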